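import Mathlib

set_option autoImplicit false

open Polynomial Filter Topology
open scoped BoundedContinuousFunction

namespace Pool.Agent.H961R3

/-- `E` is a spectral capacity for the bounded operator `R`. -/
structure IsSpectralCapacity {X : Type} [NormedAddCommGroup X] [NormedSpace ℂ X]
    (R : X →L[ℂ] X) (E : Set ℂ → Submodule ℂ X) : Prop where
  closed : ∀ F, IsClosed F → IsClosed (E F : Set X)
  empty : E ∅ = ⊥
  univ : E Set.univ = ⊤
  inter : ∀ F : ℕ → Set ℂ, (∀ n, IsClosed (F n)) → E (⋂ n, F n) = ⨅ n, E (F n)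
  cover : ∀ (n : ℕ) (U : Fin n → Set ℂ), (∀ i, IsOpen (U i)) → (⋃ i, U i) = Set.univ →
    (⨆ i, E (closure (U i))) = ⊤
  invariant : ∀ F, IsClosed F → ∀ x ∈ E F, R x ∈ E F
  spec : ∀ F (hF : IsClosed F),
    spectrum ℂ ((R.comp (E F).subtypeL).codRestrict (E F)
      (fun x => invariant F hF x x.2)) ⊆ F

/-! ### polynomials act -/

theorem poly_induction (P : ℂ[X] → Prop) (hC : ∀ a : ℂ, a ≠ 0 → P (C a))
    (hX : ∀ μ : ℂ, P (X - C μ)) (hmul : ∀ p q, P p → P q → P (p * q)) :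
    ∀ p : ℂ[X], p ≠ 0 → P p := by
  intro p hp
  have h := (IsAlgClosed.splits p).eq_prod_roots
  rw [h]
  refine hmul _ _ (hC _ (by simpa using hp)) ?_
  have h1 : P 1 := by simpa using hC 1 one_ne_zero
  generalize p.roots = s
  induction s using Multiset.induction_on with
  | empty => simpa using h1
  | cons a s ih => simpa using hmul _ _ (hX a) ih

/-- A module over `ℂ[X]` on which every `X - μ` is surjective satisfies Baer's criterion. -/
theorem baer_of_surj (Q : Type) [AddCommGroup Q] [Module ℂ[X] Q]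
    (hs : ∀ μ : ℂ, ∀ q : Q, ∃ q' : Q, (X - C μ) • q' = q) : Module.Baer ℂ[X] Q := by
  have key : ∀ p : ℂ[X], p ≠ 0 → ∀ q : Q, ∃ q' : Q, p • q' = q := by
    refine poly_induction _ ?_ hs ?_
    · intro a ha q
      refine ⟨(C a⁻¹ : ℂ[X]) • q, ?_⟩
      rw [← mul_smul, ← C_mul, mul_inv_cancel₀ ha, C_1, one_smul]
    · intro p q hp hq x
      obtain ⟨y, hy⟩ := hp x
      obtain ⟨z, hz⟩ := hq y
      exact ⟨z, by rw [mul_smul, hz, hy]⟩
  intro I g
  rcases IsPrincipalIdealRing.principal I with ⟨m, rfl⟩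
  obtain rfl | h0 := eq_or_ne m 0
  · refine ⟨0, fun n hn ↦ ?_⟩
    rw [Submodule.span_zero_singleton] at hn
    subst hn
    exact (map_zero g).symm
  obtain ⟨q', hq'⟩ := key m h0 (g ⟨m, Submodule.subset_span (Set.mem_singleton _)⟩)
  refine ⟨LinearMap.toSpanSingleton ℂ[X] Q q', fun n hn ↦ ?_⟩
  rcases Submodule.mem_span_singleton.mp hn with ⟨n, rfl⟩
  have h1 : (LinearMap.toSpanSingleton ℂ[X] Q q') (n • m) = n • (m • q') := by
    rw [LinearMap.toSpanSingleton_apply, smul_eq_mul, mul_smul]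
  rw [h1, hq', ← map_smul g, SetLike.mk_smul_mk]

/-- Algebraic core: if every `R - μ` is injective on `V` (`x₀ ≠ 0`), and every `S - μ` maps the
subspace `D` onto itself, then any `d ∈ D` is the image of `x₀` under a linear map `T` with
`T R = S T`. -/
theorem exists_intertwiner {V W : Type} [AddCommGroup V] [Module ℂ V] [AddCommGroup W] [Module ℂ W]
    (R : V →ₗ[ℂ] V) (S : W →ₗ[ℂ] W) (D : Submodule ℂ W)
    (hinj : ∀ μ : ℂ, ∀ x : V, R x - μ • x = 0 → x = 0)
    (hD : ∀ d ∈ D, S d ∈ D) (hsur : ∀ μ : ℂ, ∀ d ∈ D, ∃ d' ∈ D, S d' - μ • d' = d)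
    (x₀ : V) (hx₀ : x₀ ≠ 0) (d : W) (hd : d ∈ D) :
    ∃ T : V →ₗ[ℂ] W, (∀ x, T (R x) = S (T x)) ∧ T x₀ = d := by
  let SD : D →ₗ[ℂ] D := S.restrict hD
  let Q := Module.AEval' SD
  let N := Module.AEval' R
  have hQ : Module.Baer ℂ[X] Q := by
    refine baer_of_surj Q ?_
    intro μ q
    obtain ⟨d', hd', h⟩ := hsur μ ((Module.AEval'.of SD).symm q).1 ((Module.AEval'.of SD).symm q).2
    refine ⟨Module.AEval'.of SD ⟨d', hd'⟩, ?_⟩
    rw [sub_smul, Module.AEval'.X_smul_of]
    have h2 : (C μ : ℂ[X]) • (Module.AEval'.of SD ⟨d', hd'⟩) = Module.AEval'.of SD (μ • ⟨d', hd'⟩) := by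
      rw [map_smul]
      rw [← Polynomial.algebraMap_eq, algebraMap_smul]
    rw [h2, ← map_sub]
    rw [← LinearEquiv.eq_symm_apply]
    ext
    simpa [SD] using h
  have hN : ∀ p : ℂ[X], p ≠ 0 → ∀ x : N, p • x = 0 → x = 0 := by
    refine poly_induction _ ?_ ?_ ?_
    · intro a ha x hx
      have : (C a⁻¹ : ℂ[X]) • ((C a : ℂ[X]) • x) = 0 := by rw [hx, smul_zero]
      rwa [← mul_smul, ← C_mul, inv_mul_cancel₀ ha, C_1, one_smul] at this
    · intro μ x hx
      obtain ⟨v, rfl⟩ := (Module.AEval'.of R).surjective x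
      have h2 : (C μ : ℂ[X]) • (Module.AEval'.of R v) = Module.AEval'.of R (μ • v) := by
        rw [map_smul]
        rw [← Polynomial.algebraMap_eq, algebraMap_smul]
      rw [sub_smul, Module.AEval'.X_smul_of, h2, ← map_sub] at hx
      have h3 := hinj μ v ((Module.AEval'.of R).map_eq_zero_iff.mp hx)
      rw [h3, map_zero]
    · intro p q hp hq x hx
      rw [mul_smul] at hx
      exact hq _ (hp _ hx)
  let f : ℂ[X] →ₗ[ℂ[X]] N := LinearMap.toSpanSingleton ℂ[X] N (Module.AEval'.of R x₀)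
  have hf : Function.Injective f := by
    rw [injective_iff_map_eq_zero]
    intro p hp
    by_contra hp0
    have h1 : p • (Module.AEval'.of R x₀) = 0 := by simpa [f] using hp
    have h2 := hN p hp0 _ h1
    apply hx₀
    simpa using h2
  obtain ⟨h, hh⟩ := Module.Baer.extension_property hQ f hf
    (LinearMap.toSpanSingleton ℂ[X] Q (Module.AEval'.of SD ⟨d, hd⟩))
  have hx : h (Module.AEval'.of R x₀) = Module.AEval'.of SD ⟨d, hd⟩ := by
    have := LinearMap.congr_fun hh 1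
    simpa [f] using this
  let T : V →ₗ[ℂ] W := D.subtype ∘ₗ (Module.AEval'.of SD).symm.toLinearMap ∘ₗ
    (h.restrictScalars ℂ) ∘ₗ (Module.AEval'.of R).toLinearMap
  refine ⟨T, ?_, ?_⟩
  · intro x
    have h1 : h (Module.AEval'.of R (R x)) = (X : ℂ[X]) • h (Module.AEval'.of R x) := by
      rw [← Module.AEval'.X_smul_of, map_smul]
    obtain ⟨q, hq⟩ := (Module.AEval'.of SD).surjective (h (Module.AEval'.of R x))
    have h4 : T x = (q : W) := by
      simp [T, ← hq]
    have h5 : T (R x) = S (q : W) := by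
      have : T (R x) = (((Module.AEval'.of SD).symm (h (Module.AEval'.of R (R x))) : D) : W) := rfl
      rw [this, h1, ← hq, Module.AEval'.X_smul_of, LinearEquiv.symm_apply_apply]
      rfl
    rw [h5, h4]
  · simp [T, hx]

end Pool.Agent.H961R3
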