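import Mathlib
import Pool.Agent.H961R3.Cap

set_option autoImplicit false

open Polynomial Filter Topology
open scoped BoundedContinuousFunction

namespace Pool.Agent.H961R3

/-- the Banach space of bounded functions on `ℤ`. -/
abbrev Y0 : Type := ℤ →ᵇ ℂ

/-- the weights -/
noncomputable def w (k : ℤ) : ℂ := ((1 / 2 : ℝ) ^ k.natAbs : ℝ)

theorem norm_w (k : ℤ) : ‖w k‖ = (1 / 2 : ℝ) ^ k.natAbs := by
  unfold w
  rw [Complex.norm_real, Real.norm_of_nonneg (by positivity)]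

theorem w_ne (k : ℤ) : w k ≠ 0 := by
  have : ‖w k‖ ≠ 0 := by rw [norm_w]; positivity
  exact norm_ne_zero_iff.mp this

theorem norm_w_le (k : ℤ) : ‖w k‖ ≤ 1 := by
  rw [norm_w]; exact pow_le_one₀ (by norm_num) (by norm_num)

/-- weighted shift on functions. -/
noncomputable def shFun (f : Y0) : Y0 :=
  BoundedContinuousFunction.ofNormedAddCommGroup (fun k : ℤ => w k * f (k - 1))
    continuous_of_discreteTopology ‖f‖ (by
      intro k
      rw [norm_mul]
      calc ‖w k‖ * ‖f (k - 1)‖ ≤ 1 * ‖f‖ :=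
            mul_le_mul (norm_w_le k) (f.norm_coe_le_norm _) (norm_nonneg _) zero_le_one
        _ = ‖f‖ := one_mul _)

@[simp] theorem shFun_apply (f : Y0) (k : ℤ) : shFun f k = w k * f (k - 1) := rfl

/-- the weighted shift `(S f)(k) = w_k f(k-1)`. -/
noncomputable def sh : Y0 →L[ℂ] Y0 :=
  LinearMap.mkContinuous
    { toFun := shFun
      map_add' := by intro f g; ext k; simp [mul_add]
      map_smul' := by intro c f; ext k; simp [mul_left_comm] } 1 (by
      intro f
      rw [one_mul]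
      refine (BoundedContinuousFunction.norm_le (norm_nonneg _)).2 ?_
      intro k
      show ‖w k * f (k - 1)‖ ≤ ‖f‖
      rw [norm_mul]
      calc ‖w k‖ * ‖f (k - 1)‖ ≤ 1 * ‖f‖ :=
            mul_le_mul (norm_w_le k) (f.norm_coe_le_norm _) (norm_nonneg _) zero_le_one
        _ = ‖f‖ := one_mul _)

@[simp] theorem sh_apply (f : Y0) (k : ℤ) : sh f k = w k * f (k - 1) := rfl

/-- the operator `lam + S`. -/
noncomputable def opR (lam : ℂ) : Y0 →L[ℂ] Y0 := lam • (1 : Y0 →L[ℂ] Y0) + sh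

theorem opR_apply (lam : ℂ) (f : Y0) : opR lam f = lam • f + sh f := rfl

/-- bound for the even powers -/
theorem sh_pow_bound (n : ℕ) : ∀ f : Y0, ∀ k : ℤ, ‖(sh ^ (2 * n)) f k‖ ≤ (1 / 2 : ℝ) ^ (n ^ 2) * ‖f‖ := by
  -- stronger pointwise statement
  have main : ∀ n : ℕ, ∀ f : Y0, ∀ k : ℤ,
      ‖(sh ^ (2 * n)) f k‖ ≤ (1 / 2 : ℝ) ^ (n ^ 2) * ‖f (k - 2 * n)‖ := by
    intro n
    induction n with
    | zero => intro f k; simp
    | succ n ih =>
      intro f k
      have h1 : (sh ^ (2 * (n + 1))) f = sh ((sh ^ (2 * n)) (sh f)) := by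
        have : sh ^ (2 * (n + 1)) = sh * (sh ^ (2 * n) * sh) := by
          rw [← pow_succ, ← pow_succ']
          ring_nf
        rw [this]; rfl
      rw [h1, sh_apply, norm_mul]
      have h2 := ih (sh f) (k - 1)
      rw [sh_apply, norm_mul, norm_w] at h2
      rw [norm_w]
      have h3 : (k - 1 - 2 * (n : ℤ) - 1) = k - 2 * ((n + 1 : ℕ) : ℤ) := by push_cast; ring
      rw [h3] at h2
      have h4 : 2 * n + 1 ≤ k.natAbs + (k - 1 - 2 * (n : ℤ)).natAbs := by omega
      calc (1 / 2 : ℝ) ^ k.natAbs * ‖(sh ^ (2 * n)) (sh f) (k - 1)‖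
          ≤ (1 / 2 : ℝ) ^ k.natAbs * ((1 / 2 : ℝ) ^ (n ^ 2) *
            ((1 / 2 : ℝ) ^ (k - 1 - 2 * (n : ℤ)).natAbs * ‖f (k - 2 * ((n + 1 : ℕ) : ℤ))‖)) :=
            mul_le_mul_of_nonneg_left h2 (by positivity)
        _ = (1 / 2 : ℝ) ^ (n ^ 2) * (1 / 2 : ℝ) ^ (k.natAbs + (k - 1 - 2 * (n : ℤ)).natAbs) *
            ‖f (k - 2 * ((n + 1 : ℕ) : ℤ))‖ := by rw [pow_add]; ring
        _ ≤ (1 / 2 : ℝ) ^ (n ^ 2) * (1 / 2 : ℝ) ^ (2 * n + 1) *
            ‖f (k - 2 * ((n + 1 : ℕ) : ℤ))‖ := by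
            refine mul_le_mul_of_nonneg_right (mul_le_mul_of_nonneg_left ?_ (by positivity))
              (norm_nonneg _)
            exact pow_le_pow_of_le_one (by norm_num) (by norm_num) h4
        _ = (1 / 2 : ℝ) ^ ((n + 1) ^ 2) * ‖f (k - 2 * ((n + 1 : ℕ) : ℤ))‖ := by
            rw [← pow_add]; ring_nf
  intro f k
  exact (main n f k).trans (mul_le_mul_of_nonneg_left (f.norm_coe_le_norm _) (by positivity))

theorem sh_pow_norm (n : ℕ) : ‖sh ^ (2 * n)‖ ≤ (1 / 2 : ℝ) ^ (n ^ 2) := by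
  refine ContinuousLinearMap.opNorm_le_bound _ (by positivity) ?_
  intro f
  refine (BoundedContinuousFunction.norm_le (by positivity)).2 ?_
  intro k
  exact sh_pow_bound n f k

/-- the point mass at `0`. -/
noncomputable def e0 : Y0 :=
  BoundedContinuousFunction.ofNormedAddCommGroup (fun k : ℤ => if k = 0 then (1 : ℂ) else 0)
    continuous_of_discreteTopology 1 (by
      intro k
      by_cases h : k = 0 <;> simp [h])

/-- the point mass at `k`. -/
noncomputable def pt (k : ℤ) : Y0 :=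
  BoundedContinuousFunction.ofNormedAddCommGroup (fun j : ℤ => if j = k then (1 : ℂ) else 0)
    continuous_of_discreteTopology 1 (by
      intro j
      by_cases h : j = k <;> simp [h])

@[simp] theorem pt_apply (k j : ℤ) : pt k j = if j = k then (1 : ℂ) else 0 := rfl

theorem pt_eq (k : ℤ) : pt k = sh ((w k)⁻¹ • pt (k - 1)) := by
  ext j
  have h0 : sh ((w k)⁻¹ • pt (k - 1)) j = w j * ((w k)⁻¹ * (if j - 1 = k - 1 then (1 : ℂ) else 0)) :=
    rfl
  rw [h0, pt_apply]
  by_cases h : j = k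
  · subst h
    simp [w_ne]
  · have h2 : ¬ (j - 1 = k - 1) := fun h' => h (by linarith)
    simp [h, h2]

theorem pt_mem_range (n : ℕ) : ∀ k : ℤ, ∃ z : Y0, (sh ^ n) z = pt k := by
  induction n with
  | zero => intro k; exact ⟨pt k, by simp⟩
  | succ n ih =>
    intro k
    obtain ⟨z, hz⟩ := ih (k - 1)
    refine ⟨(w k)⁻¹ • z, ?_⟩
    have h1 : (sh ^ (n + 1)) ((w k)⁻¹ • z) = sh ((sh ^ n) ((w k)⁻¹ • z)) := by
      rw [pow_succ']; rfl
    rw [h1, map_smul, hz, ← pt_eq]

theorem e0_mem_range (n : ℕ) : ∃ z : Y0, (sh ^ n) z = e0 := pt_mem_range n 0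

/-- the divisible subspace of the weighted shift -/
noncomputable def Dsub : Submodule ℂ Y0 :=
  ⨅ n : ℕ, LinearMap.range ((sh ^ n : Y0 →L[ℂ] Y0) : Y0 →ₗ[ℂ] Y0)

theorem mem_Dsub (y : Y0) : y ∈ Dsub ↔ ∀ n : ℕ, ∃ z : Y0, (sh ^ n) z = y := by
  unfold Dsub
  rw [Submodule.mem_iInf]
  exact Iff.rfl

theorem sh_pow_comm (n : ℕ) (z : Y0) : (sh ^ n) (sh z) = sh ((sh ^ n) z) := by
  have h : sh ^ n * sh = sh * sh ^ n := by rw [← pow_succ, pow_succ']
  exact congrArg (fun A : Y0 →L[ℂ] Y0 => A z) h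

theorem opR_zero_apply (f : Y0) : opR 0 f = sh f := by
  rw [opR_apply, zero_smul, zero_add]

theorem Dsub_ne_bot (h0 : e0 ≠ 0) : Dsub ≠ ⊥ := by
  rw [Submodule.ne_bot_iff]
  exact ⟨e0, (mem_Dsub e0).mpr e0_mem_range, h0⟩

theorem e0_ne : e0 ≠ 0 := by
  intro h
  have : e0 0 = 0 := by rw [h]; rfl
  simp [e0] at this

instance : Nontrivial Y0 := ⟨⟨e0, 0, e0_ne⟩⟩

theorem spec_zero {A : Type} [NormedRing A] [NormedAlgebra ℂ A] [CompleteSpace A] [NormOneClass A]
    (a : A) (ha : ∀ n : ℕ, ‖a ^ (2 * n)‖ ≤ (1 / 2 : ℝ) ^ (n ^ 2)) (μ : ℂ) (hμ : μ ≠ 0) :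
    μ ∉ spectrum ℂ a := by
  intro h
  have h1 : ∀ n : ℕ, ‖μ‖ ^ (2 * n) ≤ (1 / 2 : ℝ) ^ (n ^ 2) := by
    intro n
    have h2 : μ ^ (2 * n) ∈ spectrum ℂ (a ^ (2 * n)) := spectrum.pow_mem_pow a (2 * n) h
    have h3 := spectrum.norm_le_norm_of_mem h2
    rw [norm_pow] at h3
    exact h3.trans (ha n)
  have hpos : 0 < ‖μ‖ ^ 2 := by positivity
  obtain ⟨n, hn⟩ := exists_pow_lt_of_lt_one hpos (by norm_num : (1 / 2 : ℝ) < 1)
  have h5 := h1 (n + 1)
  have h6 : (1 / 2 : ℝ) ^ (n + 1) < ‖μ‖ ^ 2 :=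
    lt_of_le_of_lt (pow_le_pow_of_le_one (by norm_num) (by norm_num) (Nat.le_succ n)) hn
  have h7 : ((1 / 2 : ℝ) ^ (n + 1)) ^ (n + 1) < (‖μ‖ ^ 2) ^ (n + 1) :=
    pow_lt_pow_left₀ h6 (by positivity) (Nat.succ_ne_zero n)
  rw [← pow_mul, ← pow_mul] at h7
  have h8 : (n + 1) * (n + 1) = (n + 1) ^ 2 := by ring
  rw [h8] at h7
  exact absurd h5 (not_le.mpr h7)

theorem spectrum_sh (μ : ℂ) (hμ : μ ≠ 0) : μ ∉ spectrum ℂ sh :=
  spec_zero sh sh_pow_norm μ hμ

theorem sh_injective : Function.Injective sh := by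
  rw [injective_iff_map_eq_zero]
  intro f hf
  ext k
  have h1 : sh f (k + 1) = 0 := by rw [hf]; rfl
  rw [sh_apply] at h1
  rcases mul_eq_zero.mp h1 with h2 | h2
  · exact absurd h2 (w_ne _)
  · simpa using h2

theorem bijective_opR (lam μ : ℂ) (h : μ ≠ lam) :
    Function.Bijective (fun f : Y0 => μ • f - opR lam f) := by
  have h1 : (μ - lam) ∉ spectrum ℂ sh := spectrum_sh _ (sub_ne_zero.mpr h)
  have h2 : IsUnit (algebraMap ℂ (Y0 →L[ℂ] Y0) (μ - lam) - sh) := by
    simpa [spectrum.notMem_iff] using h1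
  rw [ContinuousLinearMap.isUnit_iff_bijective] at h2
  convert h2 using 1
  funext f
  rw [opR_apply, Algebra.algebraMap_eq_smul_one]
  simp only [sub_apply, smul_apply,
    one_apply_eq_self, sub_smul]
  abel

theorem injective_opR (lam μ : ℂ) (f : Y0) (h : opR lam f - μ • f = 0) : f = 0 := by
  by_cases hμ : μ = lam
  · subst hμ
    rw [opR_apply, add_sub_cancel_left] at h
    exact sh_injective (by rw [h, map_zero])
  · apply (bijective_opR lam μ hμ).1
    show μ • f - opR lam f = μ • (0 : Y0) - opR lam 0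
    rw [smul_zero, map_zero, sub_zero, ← neg_sub, h, neg_zero]

open Classical in
/-- the spectral capacity of `lam + S`. -/
noncomputable def capR (lam : ℂ) (F : Set ℂ) : Submodule ℂ Y0 := if lam ∈ F then ⊤ else ⊥

theorem capR_of_mem {lam : ℂ} {F : Set ℂ} (h : lam ∈ F) : capR lam F = ⊤ := by
  simp [capR, h]

theorem capR_of_notMem {lam : ℂ} {F : Set ℂ} (h : lam ∉ F) : capR lam F = ⊥ := by
  simp [capR, h]

theorem isSpectralCapacity_capR (lam : ℂ) : IsSpectralCapacity (opR lam) (capR lam) where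
  closed F _ := by
    by_cases h : lam ∈ F
    · rw [capR_of_mem h]; simp
    · rw [capR_of_notMem h]; simp
  empty := capR_of_notMem (Set.notMem_empty _)
  univ := capR_of_mem (Set.mem_univ _)
  inter F _ := by
    by_cases h : ∀ n, lam ∈ F n
    · rw [capR_of_mem (Set.mem_iInter.mpr h)]
      symm
      rw [iInf_eq_top]
      exact fun n => capR_of_mem (h n)
    · rw [capR_of_notMem (fun h' => h (Set.mem_iInter.mp h'))]
      push Not at h
      obtain ⟨n, hn⟩ := h
      symm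
      rw [eq_bot_iff]
      exact (iInf_le _ n).trans (capR_of_notMem hn).le
  cover n U _ hcov := by
    have h1 : lam ∈ ⋃ i, U i := by rw [hcov]; trivial
    obtain ⟨i, hi⟩ := Set.mem_iUnion.mp h1
    rw [eq_top_iff, ← capR_of_mem (subset_closure hi)]
    exact le_iSup (fun i => capR lam (closure (U i))) i
  invariant F _ x hx := by
    by_cases h : lam ∈ F
    · rw [capR_of_mem h]; trivial
    · rw [capR_of_notMem h] at hx ⊢
      rw [Submodule.mem_bot] at hx
      rw [hx, map_zero]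
      exact Submodule.zero_mem _
  spec F hF := by
    intro μ hμ
    by_contra hμF
    refine hμ ?_
    have : CompleteSpace (capR lam F) := by
      have : IsClosed (capR lam F : Set Y0) := by
        by_cases h : lam ∈ F
        · rw [capR_of_mem h]; simp
        · rw [capR_of_notMem h]; simp
      exact this.completeSpace_coe
    show IsUnit _
    rw [ContinuousLinearMap.isUnit_iff_bijective]
    by_cases h : lam ∈ F
    · have hne : μ ≠ lam := fun h' => hμF (h' ▸ h)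
      have hb := bijective_opR lam μ hne
      constructor
      · intro x y hxy
        apply Subtype.ext
        apply hb.1
        exact congrArg (fun z : capR lam F => (z : Y0)) hxy
      · intro y
        obtain ⟨x, hx⟩ := hb.2 (y : Y0)
        refine ⟨⟨x, by rw [capR_of_mem h]; trivial⟩, ?_⟩
        exact Subtype.ext hx
    · have hsub : Subsingleton (capR lam F) := by
        rw [capR_of_notMem h]; infer_instance
      exact ⟨fun x y _ => Subsingleton.elim _ _, fun y => ⟨0, Subsingleton.elim _ _⟩⟩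

theorem Dsub_divisible (μ : ℂ) (y : Y0) :
    y ∈ Dsub ↔ ∃ d ∈ Dsub, opR 0 d - μ • d = y := by
  constructor
  · intro hy
    rw [mem_Dsub] at hy
    by_cases hμ : μ = 0
    · subst hμ
      obtain ⟨z, hz⟩ := hy 1
      rw [pow_one] at hz
      refine ⟨z, ?_, by rw [opR_zero_apply, zero_smul, sub_zero, hz]⟩
      rw [mem_Dsub]
      intro n
      obtain ⟨u, hu⟩ := hy (n + 1)
      refine ⟨u, sh_injective ?_⟩
      rw [hz, ← hu, pow_succ']
      rfl
    · obtain ⟨z, hz⟩ := (bijective_opR 0 μ hμ).2 y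
      have hz' : μ • z - opR 0 z = y := hz
      refine ⟨-z, ?_, ?_⟩
      · refine Submodule.neg_mem _ ?_
        rw [mem_Dsub]
        intro n
        obtain ⟨yn, hyn⟩ := hy n
        obtain ⟨zn, hzn⟩ := (bijective_opR 0 μ hμ).2 yn
        have hzn' : μ • zn - opR 0 zn = yn := hzn
        refine ⟨zn, (bijective_opR 0 μ hμ).1 ?_⟩
        show μ • ((sh ^ n) zn) - opR 0 ((sh ^ n) zn) = μ • z - opR 0 z
        rw [hz', ← hyn, ← hzn', map_sub, map_smul, opR_zero_apply, opR_zero_apply, sh_pow_comm]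
      · rw [map_neg, smul_neg, ← hz']
        abel
  · rintro ⟨d, hd, rfl⟩
    rw [mem_Dsub] at hd ⊢
    intro n
    obtain ⟨z, hz⟩ := hd n
    refine ⟨opR 0 z - μ • z, ?_⟩
    rw [map_sub, map_smul, hz, opR_zero_apply, opR_zero_apply, sh_pow_comm, hz]

end Pool.Agent.H961R3
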