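import Mathlib
import Pool.Agent.H961R3.Cap
import Pool.Agent.H961R3.Shift

set_option autoImplicit false

namespace Pool.Agent.H961R3

/-- If `S` has a nonzero divisible subspace `D` then the spectral inclusion fails for some
decomposable `R` and some linear `T` with `T R = S T`. -/
theorem criterion (Y : Type) [NormedAddCommGroup Y] [NormedSpace ℂ Y] [CompleteSpace Y]
    (S : Y →L[ℂ] Y) (ES : Set ℂ → Submodule ℂ Y) (hS : IsSpectralCapacity S ES)
    (D : Submodule ℂ Y) (hD0 : D ≠ ⊥)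
    (hD : ∀ μ : ℂ, ∀ y : Y, y ∈ D ↔ ∃ d ∈ D, S d - μ • d = y) :
    ∃ (lam : ℂ) (T : Y0 →ₗ[ℂ] Y), (∀ x, T (opR lam x) = S (T x)) ∧
      ∃ x ∈ capR lam {lam}, T x ∉ ES {lam} := by
  obtain ⟨d, hd, hd0⟩ := (Submodule.ne_bot_iff D).mp hD0
  have hlam : ∃ lam : ℂ, d ∉ ES {lam} := by
    by_contra hcon
    push Not at hcon
    have h0 := hcon 0
    have h1 := hcon 1
    have hint := hS.inter (fun n : ℕ => if n = 0 then ({0} : Set ℂ) else {1})
      (fun n => by by_cases h : n = 0 <;> simp [h])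
    have hemp : (⋂ n : ℕ, (if n = 0 then ({0} : Set ℂ) else {1})) = ∅ := by
      ext z
      simp only [Set.mem_iInter, Set.mem_empty_iff_false, iff_false]
      intro h
      have h3 := h 0
      have h4 := h 1
      simp at h3 h4
      rw [h3] at h4
      exact zero_ne_one h4
    rw [hemp, hS.empty] at hint
    apply hd0
    rw [← Submodule.mem_bot ℂ, hint, Submodule.mem_iInf]
    intro n
    by_cases h : n = 0
    · simpa [h] using h0
    · simpa [h] using h1
  obtain ⟨lam, hlam⟩ := hlam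
  have hmem : ∀ μ : ℂ, ∀ y ∈ D, S y - μ • y ∈ D := fun μ y hy => (hD μ _).mpr ⟨y, hy, rfl⟩
  obtain ⟨T, hT, hTd⟩ := exists_intertwiner (opR lam : Y0 →ₗ[ℂ] Y0) (S : Y →ₗ[ℂ] Y) D
    (fun μ x hx => injective_opR lam μ x hx)
    (fun y hy => by simpa using hmem 0 y hy)
    (fun μ y hy => (hD μ y).mp hy)
    e0 e0_ne d hd
  refine ⟨lam, T, hT, e0, ?_, ?_⟩
  · rw [capR_of_mem (Set.mem_singleton lam)]; trivial
  · rw [hTd]; exact hlam

end Pool.Agent.H961R3
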